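import Pool.Agent.H62.CYC.DefsR

/-!
# Project CYC, task OC: the sum of the weights
-/

set_option autoImplicit false

namespace Pool.Agent.H10.CYC

open Finset Pool.Agent.H62.CYC
open scoped Real

/-- `2 cos (2 π x / r)` -/
noncomputable def cg (M : ℕ) (x : ℝ) : ℝ := 2 * Real.cos (2 * π * x / (2 * M + 1))

lemma cg_neg (M : ℕ) (x : ℝ) : cg M (-x) = cg M x := by
  unfold cg
  rw [mul_neg, neg_div, Real.cos_neg]

lemma sg_mul (M : ℕ) (a b : ℝ) : sg M a * sg M b = cg M (a - b) - cg M (a + b) := by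
  unfold sg cg
  have h1 : 2 * π * (a - b) / (2 * M + 1) = 2 * π * a / (2 * M + 1) - 2 * π * b / (2 * M + 1) := by
    ring
  have h2 : 2 * π * (a + b) / (2 * M + 1) = 2 * π * a / (2 * M + 1) + 2 * π * b / (2 * M + 1) := by
    ring
  rw [h1, h2, Real.cos_sub, Real.cos_add]
  ring

lemma yy_eq (M : ℕ) (x : ℝ) : yy M x = -cg M (2 * x) := by
  unfold yy cg
  have h : 2 * π * (2 * x) / (2 * (M : ℝ) + 1) = 4 * π * x / (2 * M + 1) := by ring
  rw [h]
  ring

lemma sg_three (M : ℕ) (x : ℝ) : sg M (3 * x) = sg M x * (1 - yy M x) := by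
  unfold sg yy
  have h1 : 2 * π * (3 * x) / (2 * (M : ℝ) + 1) = 3 * (2 * π * x / (2 * M + 1)) := by ring
  have h2 : 4 * π * x / (2 * (M : ℝ) + 1) = 2 * (2 * π * x / (2 * M + 1)) := by ring
  rw [h1, h2, Real.sin_three_mul, Real.cos_two_mul, Real.cos_sq']
  ring

lemma sg_zero (M : ℕ) : sg M 0 = 0 := by
  unfold sg
  rw [mul_zero, zero_div, Real.sin_zero, mul_zero]

lemma sg_last (M : ℕ) : sg M (2 * (M : ℝ) + 1) = 0 := by
  unfold sg
  have h : (2 * (M : ℝ) + 1) ≠ 0 := by positivity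
  rw [mul_div_assoc, div_self h, mul_one, Real.sin_two_pi, mul_zero]

/-- `Π_c(x) / σ(x)` -/
noncomputable def pp (M c : ℕ) (x : ℝ) : ℝ := ∏ l ∈ range c, (yy M x - yy M ((l : ℝ) + 1))

lemma shift (h : S_TRG) (M c : ℕ) (x : ℝ) :
    sg M (x - c) * (sg M (x + 1) * pp M c (x + 1)) = sg M (x + c + 1) * (sg M x * pp M c x) := by
  induction c with
  | zero =>
    simp only [pp, range_zero, prod_empty, Nat.cast_zero, sub_zero, add_zero, mul_one]
    ring
  | succ c ih =>
    have h1 : pp M (c + 1) (x + 1) = pp M c (x + 1) * (sg M (x + c + 2) * sg M (x - c)) := by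
      unfold pp
      rw [prod_range_succ, ← h.1]
      congr 3 <;> ring
    have h2 : pp M (c + 1) x = pp M c x * (sg M (x + c + 1) * sg M (x - (c + 1))) := by
      unfold pp
      rw [prod_range_succ, ← h.1]
      congr 3
      ring
    rw [h1, h2]
    push_cast
    have h3 : x + (c + 1) + 1 = x + (c : ℝ) + 2 := by ring
    rw [h3]
    linear_combination (sg M (x - (c + 1)) * sg M (x + c + 2)) * ih

/-- the telescoping function -/
noncomputable def hh (M c : ℕ) (x : ℝ) : ℝ :=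
  sg M (2 * x - 1) * (sg M (x - c - 1) * (sg M x * pp M c x))

lemma hh_succ (h : S_TRG) (M c : ℕ) (x : ℝ) :
    hh M c (x + 1) = sg M (2 * x + 1) * (sg M (x + c + 1) * (sg M x * pp M c x)) := by
  unfold hh
  rw [← shift h]
  have h1 : 2 * (x + 1) - 1 = 2 * x + 1 := by ring
  have h2 : x + 1 - (c : ℝ) - 1 = x - c := by ring
  rw [h1, h2]

lemma hh_diff (h : S_TRG) (M c : ℕ) (x : ℝ) : hh M c (x + 1) - hh M c x =
    sg M x ^ 2 * pp M c x * (sg M ((c : ℝ) + 2) * (1 - yy M x) + sg M c) := by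
  rw [hh_succ h]
  unfold hh
  have h1 := sg_mul M (x + c + 1) (2 * x + 1)
  have h2 := sg_mul M (x - c - 1) (2 * x - 1)
  have h3 := sg_mul M x c
  have h4 := sg_mul M (3 * x) ((c : ℝ) + 2)
  have e1 : cg M (x + c + 1 - (2 * x + 1)) = cg M (x - c) := by
    rw [← cg_neg]; congr 1; ring
  have e2 : cg M (x - c - 1 - (2 * x - 1)) = cg M (x + c) := by
    rw [← cg_neg]; congr 1; ring
  have e3 : x + (c : ℝ) + 1 + (2 * x + 1) = 3 * x + (c + 2) := by ring
  have e4 : x - (c : ℝ) - 1 + (2 * x - 1) = 3 * x - (c + 2) := by ring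
  rw [e1, e3] at h1
  rw [e2, e4] at h2
  have h5 := sg_three M x
  have h6 : sg M (x + c + 1) * sg M (2 * x + 1) - sg M (x - c - 1) * sg M (2 * x - 1) =
      sg M x * (sg M ((c : ℝ) + 2) * (1 - yy M x) + sg M c) := by
    rw [h1, h2]
    have h7 : sg M x * (sg M ((c : ℝ) + 2) * (1 - yy M x) + sg M c) =
        sg M (3 * x) * sg M ((c : ℝ) + 2) + sg M x * sg M c := by
      rw [h5]; ring
    rw [h7, h3, h4]
    ring
  linear_combination (sg M x * pp M c x) * h6

/-- the sum of the weights -/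
noncomputable def oo (M c : ℕ) : ℝ := ∑ N ∈ range M, sg M ((N : ℝ) + 1) ^ 2 * pp M c ((N : ℝ) + 1)

lemma tel (h : S_TRG) (M c : ℕ) :
    ∑ N ∈ range M, sg M ((N : ℝ) + 1) ^ 2 * pp M c ((N : ℝ) + 1) *
      (sg M ((c : ℝ) + 2) * (1 - yy M ((N : ℝ) + 1)) + sg M c) = 0 := by
  have h1 : ∀ N ∈ range M, sg M ((N : ℝ) + 1) ^ 2 * pp M c ((N : ℝ) + 1) *
      (sg M ((c : ℝ) + 2) * (1 - yy M ((N : ℝ) + 1)) + sg M c) =
      hh M c (((N + 1 : ℕ) : ℝ) + 1) - hh M c ((N : ℝ) + 1) := by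
    intro N _
    push_cast
    rw [hh_diff h]
  rw [sum_congr rfl h1, sum_range_sub (fun N : ℕ => hh M c ((N : ℝ) + 1)), Nat.cast_zero,
    hh_succ h, hh_succ h, sg_last, sg_zero]
  ring

lemma oo_succ (h : S_TRG) (M c : ℕ) :
    sg M ((c : ℝ) + 1) * sg M ((c : ℝ) + 2) * oo M (c + 1) =
      sg M (2 * c + 3) * sg M (2 * c + 2) * oo M c := by
  have h1 : oo M (c + 1) = ∑ N ∈ range M, sg M ((N : ℝ) + 1) ^ 2 * pp M c ((N : ℝ) + 1) *
      (yy M ((N : ℝ) + 1) - yy M ((c : ℝ) + 1)) := by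
    unfold oo pp
    refine sum_congr rfl fun N _ => ?_
    rw [prod_range_succ]
    ring
  have h2 : sg M ((c : ℝ) + 2) * oo M (c + 1) =
      (sg M ((c : ℝ) + 2) * (1 - yy M ((c : ℝ) + 1)) + sg M c) * oo M c := by
    have h3 := tel h M c
    have h4 : (sg M ((c : ℝ) + 2) * (1 - yy M ((c : ℝ) + 1)) + sg M c) * oo M c -
        sg M ((c : ℝ) + 2) * oo M (c + 1) =
        ∑ N ∈ range M, sg M ((N : ℝ) + 1) ^ 2 * pp M c ((N : ℝ) + 1) *
          (sg M ((c : ℝ) + 2) * (1 - yy M ((N : ℝ) + 1)) + sg M c) := by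
      rw [h1]
      unfold oo
      rw [mul_sum, mul_sum, ← sum_sub_distrib]
      refine sum_congr rfl fun N _ => ?_
      ring
    rw [h3] at h4
    linarith
  have h5 : sg M ((c : ℝ) + 1) * (sg M ((c : ℝ) + 2) * (1 - yy M ((c : ℝ) + 1)) + sg M c) =
      sg M (2 * c + 3) * sg M (2 * c + 2) := by
    have e1 := sg_mul M (3 * ((c : ℝ) + 1)) ((c : ℝ) + 2)
    have e2 := sg_mul M ((c : ℝ) + 1) c
    have e3 := sg_mul M (2 * (c : ℝ) + 3) (2 * c + 2)
    have e4 := sg_three M ((c : ℝ) + 1)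
    have e5 : 3 * ((c : ℝ) + 1) - (c + 2) = (c + 1) + c := by ring
    have e6 : (2 * (c : ℝ) + 3) - (2 * c + 2) = (c + 1) - c := by ring
    have e7 : (2 * (c : ℝ) + 3) + (2 * c + 2) = 3 * (c + 1) + (c + 2) := by ring
    rw [e5] at e1
    rw [e6, e7] at e3
    rw [e3]
    have e8 : sg M ((c : ℝ) + 1) * (sg M ((c : ℝ) + 2) * (1 - yy M ((c : ℝ) + 1)) + sg M c) =
        sg M (3 * ((c : ℝ) + 1)) * sg M ((c : ℝ) + 2) + sg M ((c : ℝ) + 1) * sg M c := by
      rw [e4]; ring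
    rw [e8, e1, e2]
    ring
  calc sg M ((c : ℝ) + 1) * sg M ((c : ℝ) + 2) * oo M (c + 1)
      = sg M ((c : ℝ) + 1) * (sg M ((c : ℝ) + 2) * oo M (c + 1)) := by ring
    _ = _ := by rw [h2, ← h5]; ring

lemma oo_zero (h : S_TRG) (M : ℕ) (hM : 1 ≤ M) : oo M 0 = 2 * M + 1 := by
  have h1 : sg M 1 ≠ 0 := by
    refine (h.2.2.2.1 M 1 one_pos ?_).ne'
    have : (1 : ℝ) ≤ M := by exact_mod_cast hM
    linarith
  have h2 : ∀ x : ℝ, sg M 1 * sg M x ^ 2 = 2 * sg M 1 - (sg M (2 * x + 1) - sg M (2 * x - 1)) := by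
    intro x
    have h3 := h.2.1 M x
    rw [h3, yy_eq]
    unfold cg sg
    have e1 : 2 * π * (2 * x + 1) / (2 * (M : ℝ) + 1) =
        2 * π * (2 * x) / (2 * M + 1) + 2 * π * 1 / (2 * M + 1) := by ring
    have e2 : 2 * π * (2 * x - 1) / (2 * (M : ℝ) + 1) =
        2 * π * (2 * x) / (2 * M + 1) - 2 * π * 1 / (2 * M + 1) := by ring
    rw [e1, e2, Real.sin_add, Real.sin_sub]
    ring
  have h3 : sg M 1 * oo M 0 = sg M 1 * (2 * M + 1) := by
    unfold oo pp
    rw [mul_sum]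
    have h4 : ∀ N ∈ range M, sg M 1 * (sg M ((N : ℝ) + 1) ^ 2 *
        ∏ l ∈ range 0, (yy M ((N : ℝ) + 1) - yy M ((l : ℝ) + 1))) =
        2 * sg M 1 - (sg M (2 * ((N + 1 : ℕ) : ℝ) + 1) - sg M (2 * (N : ℝ) + 1)) := by
      intro N _
      rw [range_zero, prod_empty, mul_one, h2]
      push_cast
      congr 3
      ring
    rw [sum_congr rfl h4, sum_sub_distrib, sum_range_sub (fun N : ℕ => sg M (2 * (N : ℝ) + 1)),
      sum_const, card_range, nsmul_eq_mul, sg_last, Nat.cast_zero, mul_zero, zero_add]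
    ring
  exact mul_left_cancel₀ h1 h3

theorem oc (h : S_TRG) : S_OC := by
  intro M c hc
  have hpos : ∀ j : ℕ, 1 ≤ j → j ≤ M → 0 < sg M (j : ℝ) := by
    intro j h1 h2
    apply h.2.2.2.1 M j
    · exact_mod_cast h1
    · have : ((2 * j : ℕ) : ℝ) < ((2 * M + 1 : ℕ) : ℝ) := by exact_mod_cast (by omega)
      push_cast at this
      exact this
  have hsf : ∀ j : ℕ, j ≤ M → 0 < sf M j := by
    intro j hj
    unfold sf
    apply prod_pos
    intro i hi
    rw [mem_range] at hi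
    have := hpos (i + 1) (by omega) (by omega)
    push_cast at this
    exact this
  have key : ∀ c : ℕ, c + 1 ≤ M →
      oo M c * (sf M c * sf M (c + 1)) = (2 * M + 1) * sf M (2 * c + 1) := by
    intro c
    induction c with
    | zero =>
      intro hM
      rw [oo_zero h M (by omega)]
      have e0 : sf M 0 = 1 := by unfold sf; simp
      rw [e0]
      norm_num
    | succ c ih =>
      intro hM
      have ih' := ih (by omega)
      have e1 : sf M (c + 1) = sf M c * sg M ((c : ℝ) + 1) := by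
        unfold sf; rw [prod_range_succ]
      have e2 : sf M (c + 1 + 1) = sf M (c + 1) * sg M ((c : ℝ) + 2) := by
        unfold sf
        rw [prod_range_succ _ (c + 1)]
        congr 2
        push_cast
        ring
      have e3 : sf M (2 * (c + 1) + 1) = sf M (2 * c + 1) * sg M (2 * c + 2) * sg M (2 * c + 3) := by
        have : 2 * (c + 1) + 1 = (2 * c + 1) + 1 + 1 := by ring
        rw [this]
        unfold sf
        rw [prod_range_succ _ (2 * c + 1 + 1), prod_range_succ _ (2 * c + 1)]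
        congr 2
        · congr 1
          push_cast
          ring
        · push_cast
          ring
      have h4 := oo_succ h M c
      rw [e2, e3, e1]
      rw [e1] at ih'
      linear_combination (sf M c * (sf M c * sg M ((c : ℝ) + 1))) * h4 +
        (sg M (2 * c + 3) * sg M (2 * c + 2)) * ih'
  have h5 := key c hc
  have h6 := (hsf c (by omega)).ne'
  have h7 := (hsf (c + 1) hc).ne'
  rw [eq_div_iff (mul_ne_zero h6 h7)]
  exact h5

end Pool.Agent.H10.CYC
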