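import Pool.Agent.H10.CYC.TRG

/-!
# Project CYC, task STRC: the structure of the half twist in a block
-/

set_option autoImplicit false

namespace Pool.Agent.H10.CYC

open Finset Matrix Pool.Agent.H62.CYC
open scoped Real

/-- the entries of the curve operator, as a function on `ℕ × ℕ` -/
noncomputable def aa (M c K i j : ℕ) : ℝ :=
  if i = j + 1 then 1
  else if i + 1 = j then be M c j
  else if i = j ∧ i = K then
    Real.sin (π * (2 * c + 1) / (2 * M + 1)) / Real.sin (π / (2 * M + 1))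
  else 0

lemma aa_eq (M c K : ℕ) (i j : Fin (K + 1)) : aR M c K i j = aa M c K i j := rfl

section

variable {K : ℕ} (Fe : Matrix (Fin (K + 1)) (Fin (K + 1)) ℂ)

/-- extension of a matrix by zero -/
noncomputable def gg (i j : ℕ) : ℂ :=
  if h : i < K + 1 ∧ j < K + 1 then Fe ⟨i, h.1⟩ ⟨j, h.2⟩ else 0

lemma gg_fin (i j : Fin (K + 1)) : gg Fe i j = Fe i j := by
  unfold gg
  rw [dif_pos ⟨i.2, j.2⟩]

lemma gg_pos {i j : ℕ} (hi : i < K + 1) (hj : j < K + 1) : gg Fe i j = Fe ⟨i, hi⟩ ⟨j, hj⟩ := by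
  unfold gg
  rw [dif_pos ⟨hi, hj⟩]

variable {Fe} {M c : ℕ}

lemma rowrec (h : Fe * toC (aR M c K) = toC (bR M c K) * Fe) {i j : ℕ} (hi : i < K + 1)
    (hj : j < K + 1) :
    ∑ l ∈ range (K + 1), gg Fe i l * (aa M c K l j : ℂ) = (lm M (c + i) : ℂ) * gg Fe i j := by
  have h1 := congrFun (congrFun h ⟨i, hi⟩) ⟨j, hj⟩
  have h2 : (toC (bR M c K) * Fe) ⟨i, hi⟩ ⟨j, hj⟩ = (lm M (c + i) : ℂ) * gg Fe i j := by
    rw [gg_pos Fe hi hj]
    have h3 : toC (bR M c K) = diagonal fun i : Fin (K + 1) => (lm M (c + i) : ℂ) := by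
      unfold toC bR
      rw [Matrix.diagonal_map (by simp)]
    rw [h3, Matrix.diagonal_mul]
  rw [← h2, ← h1, Matrix.mul_apply, ← Fin.sum_univ_eq_sum_range
    (fun l => gg Fe i l * (aa M c K l j : ℂ))]
  refine Finset.sum_congr rfl fun l _ => ?_
  rw [gg_pos Fe hi l.2]
  rfl

lemma colrec (h : toC (aR M c K) * Fe = Fe * toC (bR M c K)) {i j : ℕ} (hi : i < K + 1)
    (hj : j < K + 1) :
    ∑ l ∈ range (K + 1), (aa M c K i l : ℂ) * gg Fe l j = (lm M (c + j) : ℂ) * gg Fe i j := by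
  have h1 := congrFun (congrFun h ⟨i, hi⟩) ⟨j, hj⟩
  have h2 : (Fe * toC (bR M c K)) ⟨i, hi⟩ ⟨j, hj⟩ = (lm M (c + j) : ℂ) * gg Fe i j := by
    rw [gg_pos Fe hi hj]
    have h3 : toC (bR M c K) = diagonal fun i : Fin (K + 1) => (lm M (c + i) : ℂ) := by
      unfold toC bR
      rw [Matrix.diagonal_map (by simp)]
    rw [h3, Matrix.mul_diagonal, mul_comm]
  rw [← h2, ← h1, Matrix.mul_apply, ← Fin.sum_univ_eq_sum_range
    (fun l => (aa M c K i l : ℂ) * gg Fe l j)]
  refine Finset.sum_congr rfl fun l _ => ?_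
  rw [gg_pos Fe l.2 hj]
  rfl

lemma row_zero (h : Fe * toC (aR M c K) = toC (bR M c K) * Fe) {i : ℕ} (hi : i < K + 1)
    (hK : 0 < K) : gg Fe i 1 = (lm M (c + i) : ℂ) * gg Fe i 0 := by
  rw [← rowrec h hi (by omega : 0 < K + 1), Finset.sum_eq_single 1]
  · simp [aa]
  · intro l _ hl
    have : aa M c K l 0 = 0 := by
      unfold aa
      rw [if_neg (by omega), if_neg (by omega), if_neg (by omega)]
    rw [this]; simp
  · intro h; exact absurd (mem_range.mpr (by omega)) h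

lemma row_succ (h : Fe * toC (aR M c K) = toC (bR M c K) * Fe) {i j : ℕ} (hi : i < K + 1)
    (hj : j + 1 < K) : gg Fe i (j + 2) =
      (lm M (c + i) : ℂ) * gg Fe i (j + 1) - (be M c (j + 1) : ℂ) * gg Fe i j := by
  have h1 := rowrec h hi (by omega : j + 1 < K + 1)
  have h2 : ∑ l ∈ range (K + 1), gg Fe i l * (aa M c K l (j + 1) : ℂ) =
      ∑ l ∈ ({j, j + 2} : Finset ℕ), gg Fe i l * (aa M c K l (j + 1) : ℂ) := by
    symm
    apply Finset.sum_subset
    · intro l hl
      simp only [Finset.mem_insert, Finset.mem_singleton] at hl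
      rw [mem_range]; omega
    · intro l _ hl
      simp only [Finset.mem_insert, Finset.mem_singleton] at hl
      have : aa M c K l (j + 1) = 0 := by
        unfold aa
        rw [if_neg (by omega), if_neg (by omega), if_neg (by omega)]
      rw [this]; simp
  rw [h2, Finset.sum_pair (by omega)] at h1
  have e1 : aa M c K j (j + 1) = be M c (j + 1) := by
    unfold aa
    rw [if_neg (by omega), if_pos rfl]
  have e2 : aa M c K (j + 2) (j + 1) = 1 := by
    unfold aa
    rw [if_pos (by omega)]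
  rw [e1, e2] at h1
  rw [← h1]
  push_cast
  ring

lemma col_zero (h : toC (aR M c K) * Fe = Fe * toC (bR M c K)) {j : ℕ} (hj : j < K + 1)
    (hK : 0 < K) : (be M c 1 : ℂ) * gg Fe 1 j = (lm M (c + j) : ℂ) * gg Fe 0 j := by
  rw [← colrec h (by omega : 0 < K + 1) hj, Finset.sum_eq_single 1]
  · simp [aa]
  · intro l _ hl
    have : aa M c K 0 l = 0 := by
      unfold aa
      rw [if_neg (by omega), if_neg (by omega), if_neg (by omega)]
    rw [this]; simp
  · intro h; exact absurd (mem_range.mpr (by omega)) h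

lemma col_succ (h : toC (aR M c K) * Fe = Fe * toC (bR M c K)) {i j : ℕ} (hj : j < K + 1)
    (hi : i + 1 < K) : (be M c (i + 2) : ℂ) * gg Fe (i + 2) j =
      (lm M (c + j) : ℂ) * gg Fe (i + 1) j - gg Fe i j := by
  have h1 := colrec h (by omega : i + 1 < K + 1) hj
  have h2 : ∑ l ∈ range (K + 1), (aa M c K (i + 1) l : ℂ) * gg Fe l j =
      ∑ l ∈ ({i, i + 2} : Finset ℕ), (aa M c K (i + 1) l : ℂ) * gg Fe l j := by
    symm
    apply Finset.sum_subset
    · intro l hl
      simp only [Finset.mem_insert, Finset.mem_singleton] at hl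
      rw [mem_range]; omega
    · intro l _ hl
      simp only [Finset.mem_insert, Finset.mem_singleton] at hl
      have : aa M c K (i + 1) l = 0 := by
        unfold aa
        rw [if_neg (by omega), if_neg (by omega), if_neg (by omega)]
      rw [this]; simp
  rw [h2, Finset.sum_pair (by omega)] at h1
  have e1 : aa M c K (i + 1) i = 1 := by
    unfold aa
    rw [if_pos rfl]
  have e2 : aa M c K (i + 1) (i + 2) = be M c (i + 2) := by
    unfold aa
    rw [if_neg (by omega), if_pos (by omega)]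
  rw [e1, e2] at h1
  rw [← h1]
  push_cast
  ring

lemma row_all (h : Fe * toC (aR M c K) = toC (bR M c K) * Fe) {i : ℕ} (hi : i < K + 1) :
    ∀ j : ℕ, j < K + 1 → gg Fe i j = gg Fe i 0 * (Qp M c j (lm M (c + i)) : ℂ) := by
  intro j
  induction j using Nat.twoStepInduction with
  | zero => intro _; simp [Qp]
  | one =>
    intro hj
    rw [row_zero h hi (by omega)]
    simp only [Qp]
    ring
  | more j ih1 ih2 =>
    intro hj
    rw [row_succ h hi (by omega), ih1 (by omega), ih2 (by omega)]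
    have e3 : Qp M c (j + 2) (lm M (c + i)) =
        lm M (c + i) * Qp M c (j + 1) (lm M (c + i)) - be M c (j + 1) * Qp M c j (lm M (c + i)) :=
      rfl
    rw [e3]
    push_cast
    ring

lemma Jc_succ (M c j : ℕ) : Jc M c (j + 1) = Jc M c j * be M c (j + 1) := by
  unfold Jc
  rw [prod_range_succ]

lemma col_all (h : toC (aR M c K) * Fe = Fe * toC (bR M c K)) {j : ℕ} (hj : j < K + 1) :
    ∀ i : ℕ, i < K + 1 → (Jc M c i : ℂ) * gg Fe i j =
      gg Fe 0 j * (Qp M c i (lm M (c + j)) : ℂ) := by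
  intro i
  induction i using Nat.twoStepInduction with
  | zero => intro _; simp [Qp, Jc]
  | one =>
    intro hi
    have e : Jc M c 1 = be M c 1 := by simp [Jc]
    rw [e, col_zero h hj (by omega)]
    simp only [Qp]
    ring
  | more i ih1 ih2 =>
    intro hi
    have e1 := col_succ h hj (by omega : i + 1 < K)
    have e3 : Qp M c (i + 2) (lm M (c + j)) =
        lm M (c + j) * Qp M c (i + 1) (lm M (c + j)) - be M c (i + 1) * Qp M c i (lm M (c + j)) :=
      rfl
    have i1 := ih1 (by omega)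
    have i2 := ih2 (by omega)
    rw [e3, Jc_succ M c (i + 1)]
    push_cast
    have e4 := Jc_succ M c i
    have e5 : (Jc M c (i + 1) : ℂ) = Jc M c i * be M c (i + 1) := by rw [e4]; push_cast; ring
    have e6 : (i + 1 + 1) = i + 2 := rfl
    rw [e6]
    have e7 : (Jc M c (i + 1) : ℂ) * (be M c (i + 2) : ℂ) * gg Fe (i + 2) j =
        Jc M c (i + 1) * ((lm M (c + j) : ℂ) * gg Fe (i + 1) j - gg Fe i j) := by
      rw [← e1]; ring
    rw [e7, mul_sub]
    have e8 : (Jc M c (i + 1) : ℂ) * ((lm M (c + j) : ℂ) * gg Fe (i + 1) j) =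
        (lm M (c + j) : ℂ) * (gg Fe 0 j * (Qp M c (i + 1) (lm M (c + j)) : ℂ)) := by
      rw [← i2]; ring
    have e9 : (Jc M c (i + 1) : ℂ) * gg Fe i j =
        (be M c (i + 1) : ℂ) * (gg Fe 0 j * (Qp M c i (lm M (c + j)) : ℂ)) := by
      rw [← i1, e5]; ring
    rw [e8, e9]
    ring

end

lemma Jc_ne {M c j : ℕ} (h : c + j + 1 ≤ M) : Jc M c j ≠ 0 := by
  rw [Jc_eq j h]
  have n1 := sf_ne (M := M) (n := 2 * c + 1) (by omega)
  have n2 := sf_ne (M := M) (n := c + j) (by omega)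
  have n3 := sf_ne (M := M) (n := c + j + 1) (by omega)
  have n4 := sf_ne (M := M) (n := c) (by omega)
  have n5 := sf_ne (M := M) (n := c + 1) (by omega)
  have n6 := sf_ne (M := M) (n := j) (by omega)
  have n7 := sf_ne (M := M) (n := 2 * c + 1 + j) (by omega)
  positivity

/-- the sum of the weights -/
lemma wsum {M c K : ℕ} (h : c + (K + 1) = M) :
    ∑ j ∈ range (K + 1), Qp M c j (lm M c) ^ 2 / Jc M c j = (2 * M + 1) / sf M (c + 1) ^ 2 := by
  have n1 := sf_ne (M := M) (n := 2 * c + 1) (by omega)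
  have n4 := sf_ne (M := M) (n := c) (by omega)
  have n5 := sf_ne (M := M) (n := c + 1) (by omega)
  have n8 : sg M ((c : ℝ) + 1) ≠ 0 := by
    have := (sg_pos_nat (M := M) (n := c + 1) (by omega) (by omega)).ne'
    push_cast at this
    exact this
  have h1 := oc trg M c (by omega)
  have h2 : ∑ N ∈ range M, sg M ((N : ℝ) + 1) ^ 2 *
      ∏ l ∈ range c, (yy M ((N : ℝ) + 1) - yy M ((l : ℝ) + 1)) =
      ∑ j ∈ range (K + 1), sg M ((c : ℝ) + j + 1) ^ 2 *
        ∏ l ∈ range c, (yy M ((c : ℝ) + j + 1) - yy M ((l : ℝ) + 1)) := by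
    conv_lhs => rw [← h]
    rw [Finset.sum_range_add]
    have h3 : ∑ x ∈ range c, sg M ((x : ℝ) + 1) ^ 2 *
        ∏ l ∈ range c, (yy M ((x : ℝ) + 1) - yy M ((l : ℝ) + 1)) = 0 := by
      apply Finset.sum_eq_zero
      intro x hx
      rw [Finset.prod_eq_zero hx (sub_self _), mul_zero]
    rw [h, h3, zero_add]
    refine Finset.sum_congr rfl fun j _ => ?_
    push_cast
    rfl
  have h4 : ∑ j ∈ range (K + 1), Qp M c j (lm M c) ^ 2 / Jc M c j =
      (∑ j ∈ range (K + 1), sg M ((c : ℝ) + j + 1) ^ 2 *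
        ∏ l ∈ range c, (yy M ((c : ℝ) + j + 1) - yy M ((l : ℝ) + 1))) /
      (sg M ((c : ℝ) + 1) * sf M (2 * c + 1)) := by
    rw [Finset.sum_div]
    refine Finset.sum_congr rfl fun j hj => ?_
    rw [mem_range] at hj
    exact qc.2.2 M c j (by omega)
  rw [h4, ← h2, h1, sf_succ M c]
  rw [sf_succ M c] at n5
  field_simp

lemma toC_mul {n : ℕ} (A B : Matrix (Fin n) (Fin n) ℝ) : toC (A * B) = toC A * toC B := by
  ext i j
  simp [toC, Matrix.mul_apply]

lemma toC_inj {n : ℕ} {A B : Matrix (Fin n) (Fin n) ℝ} (h : toC A = toC B) : A = B := by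
  ext i j
  have := congrFun (congrFun h i) j
  simp only [toC, Matrix.map_apply] at this
  exact_mod_cast this

lemma toC_one {n : ℕ} : toC (1 : Matrix (Fin n) (Fin n) ℝ) = 1 := by
  unfold toC
  rw [Matrix.map_one] <;> simp

/-- **STRC.** -/
theorem strc : S_STRC := by
  intro M c K hM Fe hsq htr hint
  have hint' : toC (aR M c K) * Fe = Fe * toC (bR M c K) := by
    calc toC (aR M c K) * Fe = (Fe * Fe) * toC (aR M c K) * Fe := by rw [hsq, Matrix.one_mul]
      _ = Fe * (Fe * toC (aR M c K)) * Fe := by simp only [Matrix.mul_assoc]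
      _ = Fe * toC (bR M c K) * (Fe * Fe) := by rw [hint]; simp only [Matrix.mul_assoc]
      _ = _ := by rw [hsq, Matrix.mul_one]
  set k : ℂ := gg Fe 0 0 with hk
  have hJ : ∀ i : ℕ, i < K + 1 → (Jc M c i : ℂ) ≠ 0 := by
    intro i hi
    exact_mod_cast Jc_ne (M := M) (c := c) (j := i) (by omega)
  have h0 : ∀ j : ℕ, j < K + 1 → gg Fe 0 j = k * (Qp M c j (lm M c) : ℂ) := by
    intro j hj
    have := row_all hint (by omega : 0 < K + 1) j hj
    rw [add_zero] at this
    exact this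
  have hfrm : ∀ i j : ℕ, i < K + 1 → j < K + 1 → (Jc M c i : ℂ) * gg Fe i j =
      k * (Qp M c j (lm M c) : ℂ) * (Qp M c i (lm M (c + j)) : ℂ) := by
    intro i j hi hj
    rw [col_all hint' hj i hi, h0 j hj]
  have hfrm' : ∀ i j : ℕ, i < K + 1 → j < K + 1 → (Jc M c i : ℂ) * gg Fe i j =
      k * (Qp M c i (lm M c) : ℂ) * (Qp M c j (lm M (c + i)) : ℂ) := by
    intro i j hi hj
    rw [row_all hint hi j hj, ← mul_assoc, hfrm i 0 hi (by omega), add_zero]
    simp [Qp]
  -- the square of `k`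
  have hk2 : k ^ 2 * (((2 * M + 1) / sf M (c + 1) ^ 2 : ℝ) : ℂ) = 1 := by
    have h1 := congrFun (congrFun hsq ⟨0, by omega⟩) ⟨0, by omega⟩
    rw [Matrix.mul_apply, Matrix.one_apply_eq] at h1
    rw [← wsum hM, ← h1]
    push_cast
    rw [Finset.mul_sum, ← Fin.sum_univ_eq_sum_range
      (fun j => k ^ 2 * ((Qp M c j (lm M c) : ℂ) ^ 2 / (Jc M c j : ℂ)))]
    refine Finset.sum_congr rfl fun j _ => ?_
    rw [← gg_pos Fe (by omega : 0 < K + 1) j.2, ← gg_pos Fe j.2 (by omega : 0 < K + 1),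
      h0 j j.2]
    have h2 := hfrm j 0 j.2 (by omega)
    have h3 : gg Fe j 0 = k * (Qp M c j (lm M c) : ℂ) / (Jc M c j : ℂ) := by
      rw [eq_div_iff (hJ j j.2), mul_comm, h2, add_zero]
      simp [Qp]
    rw [h3]
    ring
  have n5 := sf_ne (M := M) (n := c + 1) (by omega)
  have hM1 : (0 : ℝ) < 2 * M + 1 := by positivity
  have hρ : (0 : ℝ) < sf M (c + 1) ^ 2 / (2 * M + 1) := by positivity
  have hk3 : k ^ 2 = ((sf M (c + 1) ^ 2 / (2 * M + 1) : ℝ) : ℂ) := by
    have h4 : (((2 * M + 1) / sf M (c + 1) ^ 2 : ℝ) : ℂ) *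
        ((sf M (c + 1) ^ 2 / (2 * M + 1) : ℝ) : ℂ) = 1 := by
      rw [← Complex.ofReal_mul, div_mul_div_comm, mul_comm (2 * (M : ℝ) + 1), div_self
        (by positivity), Complex.ofReal_one]
    calc k ^ 2 = k ^ 2 * ((((2 * M + 1) / sf M (c + 1) ^ 2 : ℝ) : ℂ) *
          ((sf M (c + 1) ^ 2 / (2 * M + 1) : ℝ) : ℂ)) := by rw [h4, mul_one]
      _ = (k ^ 2 * (((2 * M + 1) / sf M (c + 1) ^ 2 : ℝ) : ℂ)) *
          ((sf M (c + 1) ^ 2 / (2 * M + 1) : ℝ) : ℂ) := by ring
      _ = _ := by rw [hk2, one_mul]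
  obtain ⟨kr, hkr⟩ : ∃ kr : ℝ, (kr : ℂ) = k := by
    set s := Real.sqrt (sf M (c + 1) ^ 2 / (2 * M + 1)) with hs
    have hs2 : s ^ 2 = sf M (c + 1) ^ 2 / (2 * M + 1) := Real.sq_sqrt hρ.le
    rw [← hs2, Complex.ofReal_pow] at hk3
    rcases sq_eq_sq_iff_eq_or_eq_neg.mp hk3 with h | h
    · exact ⟨s, h.symm⟩
    · exact ⟨-s, by rw [h]; push_cast; rfl⟩
  let F : Matrix (Fin (K + 1)) (Fin (K + 1)) ℝ := fun i j =>
    kr * Qp M c j (lm M c) * Qp M c i (lm M (c + j)) / Jc M c i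
  have hF : toC F = Fe := by
    ext i j
    have h1 := hfrm i j i.2 j.2
    rw [gg_fin] at h1
    have h2 : Fe i j = k * (Qp M c j (lm M c) : ℂ) * (Qp M c i (lm M (c + j)) : ℂ) /
        (Jc M c i : ℂ) := by
      rw [eq_div_iff (hJ i i.2), mul_comm, h1]
    rw [h2, ← hkr]
    simp only [toC, Matrix.map_apply, F]
    push_cast
    rfl
  refine ⟨F, kr, ⟨?_, ?_, ?_, fun i j => rfl, ?_, ?_⟩, hF⟩
  · apply toC_inj
    rw [toC_mul, hF, hsq, toC_one]
  · have h1 : Fe.trace = ((F.trace : ℝ) : ℂ) := by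
      rw [← hF]
      simp [toC, Matrix.trace]
    rw [h1, Complex.norm_real] at htr
    exact htr
  · apply toC_inj
    rw [toC_mul, toC_mul, hF, hint]
  · intro i j
    have h1 := hfrm' i j i.2 j.2
    have h2 := hfrm j i j.2 i.2
    have h3 : (Jc M c i : ℂ) * gg Fe i j = (Jc M c j : ℂ) * gg Fe j i := by rw [h1, h2]
    rw [gg_fin, gg_fin, ← hF] at h3
    simp only [toC, Matrix.map_apply] at h3
    exact_mod_cast h3
  · rw [← hkr] at hk3
    exact_mod_cast hk3

end Pool.Agent.H10.CYC
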