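import Pool.Agent.H10.CYC.OC

/-!
# Project CYC, tasks TRG and QC: trigonometry, signs and closed formulas
-/

set_option autoImplicit false

namespace Pool.Agent.H10.CYC

open Finset Pool.Agent.H62.CYC
open scoped Real

lemma cg_zero (M : ℕ) : cg M 0 = 2 := by
  unfold cg
  rw [mul_zero, zero_div, Real.cos_zero, mul_one]

/-- **TRG.** -/
theorem trg : S_TRG := by
  have h1 : ∀ (M : ℕ) (x l : ℝ), sg M (x + l) * sg M (x - l) = yy M x - yy M l := by
    intro M x l
    rw [sg_mul, yy_eq, yy_eq]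
    have e1 : x + l - (x - l) = 2 * l := by ring
    have e2 : x + l + (x - l) = 2 * x := by ring
    rw [e1, e2]
    ring
  refine ⟨h1, ?_, ?_, ?_, ?_⟩
  · intro M x
    have h2 := h1 M x 0
    rw [add_zero, sub_zero, yy_eq M 0, mul_zero, cg_zero] at h2
    rw [sq, h2]
    ring
  · intro M a
    unfold lm yy
    have e : 4 * π * ((a : ℝ) + 1) / (2 * (M : ℝ) + 1) =
        2 * (2 * π * ((a : ℝ) + 1) / (2 * M + 1)) := by ring
    rw [e, Real.cos_two_mul]
    ring
  · intro M x hx hx2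
    unfold sg
    have hM : (0 : ℝ) < 2 * M + 1 := by positivity
    have := Real.sin_pos_of_pos_of_lt_pi (x := 2 * π * x / (2 * M + 1)) (by positivity) (by
      rw [div_lt_iff₀ hM]
      nlinarith [Real.pi_pos])
    linarith
  · intro M x hx hx2
    unfold sg
    have hM : (0 : ℝ) < 2 * M + 1 := by positivity
    have hxpos : 0 < x := by linarith
    have := Real.sin_neg_of_neg_of_neg_pi_lt (x := 2 * π * x / (2 * M + 1) - 2 * π) (by
      rw [sub_neg, div_lt_iff₀ hM]
      nlinarith [Real.pi_pos]) (by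
      have : π < 2 * π * x / (2 * M + 1) := by
        rw [lt_div_iff₀ hM]
        nlinarith [Real.pi_pos]
      linarith)
    rw [Real.sin_sub_two_pi] at this
    linarith

lemma sg_pos_nat {M n : ℕ} (h0 : 0 < n) (h1 : n ≤ M) : 0 < sg M n := by
  refine trg.2.2.2.1 M n (by exact_mod_cast h0) ?_
  have : (n : ℝ) ≤ M := by exact_mod_cast h1
  linarith

lemma sg_ne_nat {M n : ℕ} (h0 : 0 < n) (h1 : n < 2 * M + 1) : sg M n ≠ 0 := by
  by_cases h : n ≤ M
  · exact (sg_pos_nat h0 h).ne'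
  · refine (trg.2.2.2.2 M n ?_ ?_).ne
    · have : M + 1 ≤ n := by omega
      have h2 : ((M + 1 : ℕ) : ℝ) ≤ n := by exact_mod_cast this
      push_cast at h2
      linarith
    · exact_mod_cast h1

lemma sf_succ (M n : ℕ) : sf M (n + 1) = sf M n * sg M ((n : ℝ) + 1) := by
  unfold sf
  rw [prod_range_succ]

lemma sf_ne {M n : ℕ} (h : n < 2 * M + 1) : sf M n ≠ 0 := by
  unfold sf
  rw [prod_ne_zero_iff]
  intro i hi
  rw [mem_range] at hi
  have := sg_ne_nat (M := M) (n := i + 1) (by omega) (by omega)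
  push_cast at this
  exact this

lemma prodA (M a j : ℕ) : (∏ i ∈ range j, sg M ((a : ℝ) + 1 + i)) * sf M a = sf M (a + j) := by
  induction j with
  | zero => simp
  | succ j ih =>
    rw [prod_range_succ, ← add_assoc, sf_succ, ← ih]
    push_cast
    have e : (a : ℝ) + j + 1 = a + 1 + j := by ring
    rw [e]
    ring

lemma prodP (M c : ℕ) : ∀ n : ℕ, pp M c ((c : ℝ) + n + 1) * sf M (c + n + 1) * sf M n =
    sf M (2 * c + n + 1) * sf M (c + n) := by
  induction c with
  | zero =>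
    intro n
    simp [pp]
  | succ c ih =>
    intro n
    have h1 : pp M (c + 1) (((c + 1 : ℕ) : ℝ) + n + 1) = pp M c ((c : ℝ) + (n + 1 : ℕ) + 1) *
        (sg M (((2 * c + n + 1 + 1 : ℕ) : ℝ) + 1) * sg M ((n : ℝ) + 1)) := by
      unfold pp
      rw [prod_range_succ, ← trg.1]
      push_cast
      congr 1
      · refine prod_congr rfl fun l _ => ?_
        have e : (c : ℝ) + 1 + n + 1 = c + (n + 1) + 1 := by ring
        rw [e]
      · congr 2 <;> ring
    have h2 := ih (n + 1)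
    have e1 : c + 1 + n + 1 = c + (n + 1) + 1 := by ring
    have e2 : 2 * (c + 1) + n + 1 = 2 * c + n + 1 + 1 + 1 := by ring
    have e3 : c + 1 + n = c + (n + 1) := by ring
    have e4 : 2 * c + (n + 1) + 1 = 2 * c + n + 1 + 1 := by ring
    rw [h1, e1, e2, e3, sf_succ M (2 * c + n + 1 + 1)]
    rw [sf_succ M n, e4] at h2
    linear_combination (sg M (((2 * c + n + 1 + 1 : ℕ) : ℝ) + 1)) * h2

lemma sg_cg (M : ℕ) (a b : ℝ) : cg M b * sg M a = sg M (a + b) + sg M (a - b) := by
  unfold sg cg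
  have h1 : 2 * π * (a - b) / (2 * M + 1) = 2 * π * a / (2 * M + 1) - 2 * π * b / (2 * M + 1) := by
    ring
  have h2 : 2 * π * (a + b) / (2 * M + 1) = 2 * π * a / (2 * M + 1) + 2 * π * b / (2 * M + 1) := by
    ring
  rw [h1, h2, Real.sin_sub, Real.sin_add]
  ring

/-- the closed form of `Q_j(λ_c)` -/
noncomputable def qq (M c j : ℕ) : ℝ :=
  (-1) ^ j * ∏ i ∈ range j, (sg M (2 * c + 2 + i) / sg M ((c : ℝ) + 1 + i))

lemma qq_succ (M c j : ℕ) : qq M c (j + 1) =
    -(sg M (2 * c + 2 + j) / sg M ((c : ℝ) + 1 + j)) * qq M c j := by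
  unfold qq
  rw [prod_range_succ, pow_succ]
  ring

lemma lm_eq (M c : ℕ) : lm M c = -cg M ((c : ℝ) + 1) := by
  unfold lm cg
  ring

lemma qq_rec {M c j : ℕ} (h : c + (j + 2) + 1 ≤ M) :
    qq M c (j + 2) = lm M c * qq M c (j + 1) - be M c (j + 1) * qq M c j := by
  have hB : sg M ((c : ℝ) + 1 + j) ≠ 0 := by
    have := (sg_pos_nat (M := M) (n := c + 1 + j) (by omega) (by omega)).ne'
    push_cast at this
    exact this
  have hB' : sg M ((c : ℝ) + 1 + (j + 1 : ℕ)) ≠ 0 := by
    have := (sg_pos_nat (M := M) (n := c + 1 + (j + 1)) (by omega) (by omega)).ne'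
    push_cast at this ⊢
    exact this
  have e1 := sg_cg M ((c : ℝ) + 1 + (j + 1 : ℕ)) ((c : ℝ) + 1)
  have e2 : (c : ℝ) + 1 + (j + 1 : ℕ) + (c + 1) = 2 * c + 2 + (j + 1 : ℕ) := by ring
  have e3 : (c : ℝ) + 1 + (j + 1 : ℕ) - (c + 1) = (j + 1 : ℕ) := by ring
  rw [e2, e3] at e1
  have e4 : (2 * (c : ℝ) + 1 + (j + 1 : ℕ)) = 2 * c + 2 + j := by push_cast; ring
  have e5 : (c : ℝ) + (j + 1 : ℕ) = c + 1 + j := by push_cast; ring
  have e6 : (c : ℝ) + 1 + j + 1 = c + 1 + (j + 1 : ℕ) := by push_cast; ring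
  rw [qq_succ, qq_succ, lm_eq]
  unfold be
  rw [e4, e5, e6]
  generalize sg M (2 * (c : ℝ) + 2 + j) = x1 at *
  generalize sg M (2 * (c : ℝ) + 2 + (j + 1 : ℕ)) = x2 at *
  generalize sg M ((c : ℝ) + 1 + j) = x3 at *
  generalize sg M ((c : ℝ) + 1 + (j + 1 : ℕ)) = x4 at *
  generalize sg M ((j + 1 : ℕ) : ℝ) = x5 at *
  generalize cg M ((c : ℝ) + 1) = x6 at *
  field_simp
  linear_combination (-x1 * qq M c j) * e1

lemma Qp_eq {M c : ℕ} : ∀ j : ℕ, c + j + 1 ≤ M → Qp M c j (lm M c) = qq M c j := by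
  intro j
  induction j using Nat.twoStepInduction with
  | zero => intro _; simp [Qp, qq]
  | one =>
    intro h
    have hB : sg M ((c : ℝ) + 1) ≠ 0 := by
      have := (sg_pos_nat (M := M) (n := c + 1) (by omega) (by omega)).ne'
      push_cast at this
      exact this
    have e1 := sg_cg M ((c : ℝ) + 1) ((c : ℝ) + 1)
    have e2 : (c : ℝ) + 1 + (c + 1) = 2 * c + 2 := by ring
    rw [e2, sub_self, sg_zero, add_zero] at e1
    have e3 : Qp M c 1 (lm M c) = lm M c := rfl
    rw [e3, lm_eq, qq_succ]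
    unfold qq
    rw [pow_zero, range_zero, prod_empty, Nat.cast_zero, add_zero, add_zero, ← e1]
    field_simp
  | more j ih1 ih2 =>
    intro h
    have e3 : Qp M c (j + 2) (lm M c) =
        lm M c * Qp M c (j + 1) (lm M c) - be M c (j + 1) * Qp M c j (lm M c) := rfl
    rw [e3, ih1 (by omega), ih2 (by omega), qq_rec h]

lemma Jc_eq {M c : ℕ} : ∀ j : ℕ, c + j + 1 ≤ M → Jc M c j =
    sf M j * sf M (2 * c + 1 + j) * sf M c * sf M (c + 1) /
      (sf M (2 * c + 1) * sf M (c + j) * sf M (c + j + 1)) := by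
  intro j
  induction j with
  | zero =>
    intro h
    have h1 := sf_ne (M := M) (n := 2 * c + 1) (by omega)
    have h2 := sf_ne (M := M) (n := c) (by omega)
    have h3 := sf_ne (M := M) (n := c + 1) (by omega)
    have h4 : sf M 0 = 1 := by simp [sf]
    unfold Jc
    rw [range_zero, prod_empty, add_zero, add_zero, h4]
    field_simp
  | succ j ih =>
    intro h
    have h1 := sf_ne (M := M) (n := 2 * c + 1) (by omega)
    have h2 := sf_ne (M := M) (n := c + j) (by omega)
    have h3 := sf_ne (M := M) (n := c + j + 1) (by omega)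
    have hB : sg M (((c + j : ℕ) : ℝ) + 1) ≠ 0 := by
      have := (sg_pos_nat (M := M) (n := c + j + 1) (by omega) (by omega)).ne'
      push_cast at this ⊢
      exact this
    have hB' : sg M (((c + j + 1 : ℕ) : ℝ) + 1) ≠ 0 := by
      have := (sg_pos_nat (M := M) (n := c + j + 1 + 1) (by omega) (by omega)).ne'
      push_cast at this ⊢
      exact this
    have e0 : Jc M c (j + 1) = Jc M c j * be M c (j + 1) := by
      unfold Jc
      rw [prod_range_succ]
    have e1 : 2 * c + 1 + (j + 1) = 2 * c + 1 + j + 1 := by ring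
    have e2 : c + (j + 1) = c + j + 1 := by ring
    have e3 : be M c (j + 1) = sg M ((j : ℝ) + 1) * sg M (((2 * c + 1 + j : ℕ) : ℝ) + 1) /
        (sg M (((c + j : ℕ) : ℝ) + 1) * sg M (((c + j + 1 : ℕ) : ℝ) + 1)) := by
      unfold be
      push_cast
      congr 3 <;> ring
    rw [e0, ih (by omega), e1, e2, e3, sf_succ M j, sf_succ M (2 * c + 1 + j),
      sf_succ M (c + j + 1)]
    rw [sf_succ M (c + j)] at h3 ⊢
    field_simp

/-- **QC.** -/
theorem qc : S_QC := by
  refine ⟨fun M c j h => Qp_eq j h, fun M c j h => Jc_eq j h, ?_⟩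
  intro M c j h
  rw [Qp_eq j h, Jc_eq j h]
  have hP := prodP M c j
  unfold pp at hP
  set P := ∏ l ∈ range c, (yy M ((c : ℝ) + j + 1) - yy M ((l : ℝ) + 1)) with hPdef
  have hA := prodA M (2 * c + 1) j
  have hB := prodA M c j
  have n1 := sf_ne (M := M) (n := 2 * c + 1) (by omega)
  have n2 := sf_ne (M := M) (n := c + j) (by omega)
  have n3 := sf_ne (M := M) (n := c + j + 1) (by omega)
  have n4 := sf_ne (M := M) (n := c) (by omega)
  have n5 := sf_ne (M := M) (n := c + 1) (by omega)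
  have n6 := sf_ne (M := M) (n := j) (by omega)
  have n7 := sf_ne (M := M) (n := 2 * c + 1 + j) (by omega)
  have n8 : sg M ((c : ℝ) + 1) ≠ 0 := by
    have := (sg_pos_nat (M := M) (n := c + 1) (by omega) (by omega)).ne'
    push_cast at this
    exact this
  have s1 := sf_succ M c
  have s2 := sf_succ M (c + j)
  have eA : ∀ i : ℕ, ((2 * c + 1 : ℕ) : ℝ) + 1 + i = 2 * c + 2 + i := by
    intro i; push_cast; ring
  simp only [eA] at hA
  have hq : qq M c j ^ 2 = (sf M (2 * c + 1 + j) / sf M (2 * c + 1)) ^ 2 /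
      (sf M (c + j) / sf M c) ^ 2 := by
    unfold qq
    rw [mul_pow, ← pow_mul, mul_comm j 2, pow_mul, neg_one_sq, one_pow, one_mul,
      prod_div_distrib, div_pow, ← hA, ← hB, mul_div_cancel_right₀ _ n1,
      mul_div_cancel_right₀ _ n4]
  rw [hq]
  have e1 : 2 * c + j + 1 = 2 * c + 1 + j := by ring
  rw [e1] at hP
  have e2 : sg M ((c : ℝ) + j + 1) = sf M (c + j + 1) / sf M (c + j) := by
    rw [s2]
    push_cast
    rw [mul_div_cancel_left₀ _ n2]
  have e3 : sg M ((c : ℝ) + 1) = sf M (c + 1) / sf M c := by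
    rw [s1, mul_div_cancel_left₀ _ n4]
  have e4 : P = sf M (2 * c + 1 + j) * sf M (c + j) / (sf M (c + j + 1) * sf M j) := by
    rw [eq_div_iff (mul_ne_zero n3 n6), ← hP]
    ring
  rw [e2, e3, e4]
  field_simp

end Pool.Agent.H10.CYC
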