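import Pool.Graph.R_seed8.R807.IN4
import Pool.Graph.R_pool_sql_team_seeded_c8625f6e.K4H4.SY.Vol4
import Pool.Graph.R_seed8.W120.VC.Tet

/-!
# Project CYC, module VOL: the volumes of the cyclic covers are the values of `hV`
-/

set_option autoImplicit false

namespace Pool.Agent.H10.CYC

open Finset Filter
open GapVol (lob)
open Pool.Agent.R807.IN
open Pool.Agent.K4H4.SY (pr pr_cons hinges_pr)
open scoped Real Topology

lemma length_pr (n a b : ℕ) : (pr (List.replicate n (a, b))).length = n * (a + b) := by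
  induction n with
  | zero => rw [List.replicate_zero, zero_mul]; rfl
  | succ n ih =>
    rw [List.replicate_succ, pr_cons, List.length_append, List.length_append,
      List.length_replicate, List.length_replicate, ih]
    ring

lemma hinges_le (u : List Bool) : hinges u ≤ u.length := by
  unfold hinges
  exact (card_filter_le _ _).trans (card_range _).le

theorem vol1 (n : ℕ) (hn : 1 ≤ n) :
    hV (pr (List.replicate n (1, 1))) = 4 * n * (3 * lob (π / 3)) := by
  set u := pr (List.replicate n (1, 1)) with hu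
  have hlen : u.length = n * 2 := length_pr n 1 1
  have h1 : 2 * n ≤ hinges u := by
    have := hinges_pr (List.replicate n (1, 1)) (by
      intro h
      have := congrArg List.length h
      rw [List.length_replicate, List.length_nil] at this
      omega) (fun p hp => by
      rw [List.mem_replicate] at hp
      rw [hp.2]
      exact ⟨le_rfl, le_rfl⟩)
    rwa [List.length_replicate] at this
  have h2 := hinges_le u
  have h3 : hinges u = 2 * n := by omega
  obtain ⟨b1, b2⟩ := hV_bounds u (by omega)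
  rw [h3] at b1
  rw [hlen] at b2
  push_cast at b1 b2
  linarith

lemma getD_two (n : ℕ) : ∀ j : ℕ, j < 4 * n →
    (pr (List.replicate n (2, 2))).getD j false = decide (j % 4 < 2) := by
  induction n with
  | zero => intro j hj; omega
  | succ n ih =>
    intro j hj
    rw [List.replicate_succ, pr_cons]
    have e : List.replicate 2 true ++ (List.replicate 2 false ++ pr (List.replicate n (2, 2))) =
        true :: true :: false :: false :: pr (List.replicate n (2, 2)) := rfl
    simp only []
    rw [e]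
    match j, hj with
    | 0, _ => rfl
    | 1, _ => rfl
    | 2, _ => rfl
    | 3, _ => rfl
    | (k + 4), hk =>
      rw [List.getD_cons_succ, List.getD_cons_succ, List.getD_cons_succ, List.getD_cons_succ,
        ih k (by omega), Nat.add_mod_right]

lemma lett_two {n : ℕ} (hn : 1 ≤ n) (i : ℤ) :
    lett (pr (List.replicate n (2, 2))) i = decide (i % 4 < 2) := by
  unfold lett
  rw [length_pr]
  have h0 : (0 : ℤ) < ((n * (2 + 2) : ℕ) : ℤ) := by exact_mod_cast (by omega : 0 < n * (2 + 2))
  have h1 := Int.emod_nonneg i h0.ne'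
  have h2 := Int.emod_lt_of_pos i h0
  set m : ℤ := i % ((n * (2 + 2) : ℕ) : ℤ) with hm
  have h3 : m % 4 = i % 4 := by
    rw [hm]
    apply Int.emod_emod_of_dvd
    refine ⟨n, ?_⟩
    push_cast
    ring
  rw [getD_two n m.toNat (by omega)]
  have h4 : (m.toNat : ℤ) = m := Int.toNat_of_nonneg h1
  by_cases h : i % 4 < 2
  · rw [decide_eq_true h, decide_eq_true]
    omega
  · rw [decide_eq_false h, decide_eq_false]
    omega

lemma hinge_two {n : ℕ} (hn : 1 ≤ n) (i : ℤ) :
    Hinge (pr (List.replicate n (2, 2))) i ↔ i % 2 = 1 := by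
  unfold Hinge
  rw [lett_two hn, lett_two hn, ne_eq, decide_eq_decide]
  omega

/-- the maximal angle structure -/
noncomputable def ww (i : ℤ) : ℝ := if i % 2 = 1 then π / 2 else 3 * π / 4

lemma ww_odd {i : ℤ} (h : i % 2 = 1) : ww i = π / 2 := if_pos h

lemma ww_even {i : ℤ} (h : ¬ i % 2 = 1) : ww i = 3 * π / 4 := if_neg h

lemma ang_odd {n : ℕ} (hn : 1 ≤ n) {i : ℤ} (h : i % 2 = 1) :
    hX (pr (List.replicate n (2, 2))) ww i = π / 4 ∧
      hY (pr (List.replicate n (2, 2))) ww i = π / 4 ∧ hZ ww i = π / 2 := by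
  unfold hX hY hZ
  rw [if_pos ((hinge_two hn i).2 h), if_pos ((hinge_two hn i).2 h), ww_odd h,
    ww_even (by omega : ¬ (i - 1) % 2 = 1), ww_even (by omega : ¬ (i + 1) % 2 = 1)]
  refine ⟨?_, ?_, ?_⟩ <;> ring

lemma ang_even {n : ℕ} (hn : 1 ≤ n) {i : ℤ} (h : ¬ i % 2 = 1) :
    hX (pr (List.replicate n (2, 2))) ww i = π / 2 ∧
      hY (pr (List.replicate n (2, 2))) ww i = π / 4 ∧ hZ ww i = π / 4 := by
  unfold hX hY hZ
  rw [if_neg (fun h' => h ((hinge_two hn i).1 h')), if_neg (fun h' => h ((hinge_two hn i).1 h')),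
    ww_even h, ww_odd (by omega : (i - 1) % 2 = 1), ww_odd (by omega : (i + 1) % 2 = 1)]
  refine ⟨?_, ?_, ?_⟩ <;> ring

lemma ww_angle {n : ℕ} (hn : 1 ≤ n) : hAngle (pr (List.replicate n (2, 2))) ww := by
  have hp := Real.pi_pos
  constructor
  · intro i
    rw [length_pr]
    have e : (i + ((n * (2 + 2) : ℕ) : ℤ)) % 2 = i % 2 := by
      push_cast
      omega
    unfold ww
    rw [e]
  · intro i
    by_cases h : i % 2 = 1
    · obtain ⟨e1, e2, e3⟩ := ang_odd hn h
      rw [e1, e2, e3]
      refine ⟨?_, ?_, ?_⟩ <;> positivity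
    · obtain ⟨e1, e2, e3⟩ := ang_even hn h
      rw [e1, e2, e3]
      refine ⟨?_, ?_, ?_⟩ <;> positivity

lemma lob_half : lob (π / 2) = 0 := by
  have h := Pool.Agent.R807.TQ.lob_rfl (π / 2)
  have e : π - π / 2 = π / 2 := by ring
  rw [e] at h
  linarith

lemma ww_vol {n : ℕ} (hn : 1 ≤ n) :
    hvol (pr (List.replicate n (2, 2))) ww = 16 * n * lob (π / 4) := by
  unfold hvol
  rw [length_pr]
  have h1 : ∀ i ∈ range (n * (2 + 2)), 2 * (lob (hX (pr (List.replicate n (2, 2))) ww i) +
      lob (hY (pr (List.replicate n (2, 2))) ww i) + lob (hZ ww i)) = 4 * lob (π / 4) := by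
    intro i _
    by_cases h : (i : ℤ) % 2 = 1
    · obtain ⟨e1, e2, e3⟩ := ang_odd hn h
      rw [e1, e2, e3, lob_half]
      ring
    · obtain ⟨e1, e2, e3⟩ := ang_even hn h
      rw [e1, e2, e3, lob_half]
      ring
  rw [sum_congr rfl h1, sum_const, card_range, nsmul_eq_mul]
  push_cast
  ring

lemma layer {x y z : ℝ} (hx : 0 ≤ x) (hy : 0 ≤ y) (hz : 0 ≤ z) (h : x + y + z = π) :
    lob x + lob y + lob z ≤ 2 * lob (π / 4) - Real.log 2 / 2 * (z - π / 2) := by
  have hp := Real.pi_pos
  have h1 := Pool.Agent.W120.VC.tet (π / 4) (π / 4) (π / 2) x y z (by positivity) (by positivity)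
    (by positivity) (by ring) hx hy hz h
  have e1 : Real.log (2 * Real.sin (π / 4)) = Real.log 2 / 2 := by
    rw [Real.sin_pi_div_four, mul_div_cancel₀ _ (two_ne_zero), Real.log_sqrt (by norm_num)]
  have e2 : Real.log (2 * Real.sin (π / 2)) = Real.log 2 := by
    rw [Real.sin_pi_div_two, mul_one]
  rw [e1, e2, lob_half] at h1
  have e3 : z = π - x - y := by linarith
  subst e3
  linarith

/-- the angle opposite the right angle -/
noncomputable def ze (w : ℤ → ℝ) (i : ℤ) : ℝ :=
  if i % 2 = 1 then π - w i else (w (i - 1) + w (i + 1)) / 2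

lemma ze_sum (w : ℤ → ℝ) (k : ℕ) :
    ∑ i ∈ range (2 * k), (ze w i - π / 2) = (w (-1) - w (2 * k - 1)) / 2 := by
  induction k with
  | zero => simp
  | succ k ih =>
    rw [show 2 * (k + 1) = 2 * k + 1 + 1 by ring, sum_range_succ, sum_range_succ, ih]
    have e1 : ze w ((2 * k : ℕ) : ℤ) = (w (2 * k - 1) + w (2 * k + 1)) / 2 := by
      unfold ze
      push_cast
      rw [if_neg (by omega)]
    have e2 : ze w ((2 * k + 1 : ℕ) : ℤ) = π - w (2 * k + 1) := by
      unfold ze
      push_cast
      rw [if_pos (by omega)]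
    rw [e1, e2]
    have e3 : (2 * ((k + 1 : ℕ) : ℤ) - 1) = 2 * k + 1 := by push_cast; ring
    rw [e3]
    ring

lemma vol_two_le {n : ℕ} (hn : 1 ≤ n) {w : ℤ → ℝ} (hw : hAngle (pr (List.replicate n (2, 2))) w) :
    hvol (pr (List.replicate n (2, 2))) w ≤ 16 * n * lob (π / 4) := by
  set u := pr (List.replicate n (2, 2)) with hu
  have h1 : ∀ i ∈ range (2 * (2 * n)), 2 * (lob (hX u w i) + lob (hY u w i) + lob (hZ w i)) ≤
      4 * lob (π / 4) - Real.log 2 * (ze w i - π / 2) := by
    intro i _
    obtain ⟨a1, a2, a3⟩ := hw.2 i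
    have hs : hX u w i + hY u w i + hZ w i = π := by
      unfold hX hY hZ
      split_ifs <;> ring
    by_cases h : (i : ℤ) % 2 = 1
    · have h2 := layer a1.le a2.le a3.le hs
      have e : ze w i = hZ w i := by
        unfold ze hZ
        rw [if_pos h]
      rw [e]
      linarith
    · have h2 := layer a2.le a3.le a1.le (by linarith)
      have e : ze w i = hX u w i := by
        unfold ze hX
        rw [if_neg h, if_neg (fun h' => h ((hinge_two hn _).1 h'))]
      rw [e]
      linarith
  have h2 : hvol u w = ∑ i ∈ range (2 * (2 * n)),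
      2 * (lob (hX u w i) + lob (hY u w i) + lob (hZ w i)) := by
    unfold hvol
    rw [hu, length_pr, show n * (2 + 2) = 2 * (2 * n) by ring]
  rw [h2]
  refine (sum_le_sum h1).trans (le_of_eq ?_)
  rw [sum_sub_distrib, sum_const, ← mul_sum, ze_sum]
  have h3 : w (2 * ((2 * n : ℕ) : ℤ) - 1) = w (-1) := by
    have h4 := hw.1 (-1)
    rw [hu, length_pr] at h4
    rw [← h4]
    congr 1
    push_cast
    ring
  rw [h3, sub_self, zero_div, mul_zero, sub_zero, card_range, nsmul_eq_mul]
  push_cast
  ring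

theorem vol2 (n : ℕ) (hn : 1 ≤ n) :
    hV (pr (List.replicate n (2, 2))) = 16 * n * lob (π / 4) := by
  apply le_antisymm
  · refine csSup_le ⟨_, ww, ww_angle hn, rfl⟩ ?_
    rintro V ⟨w, hw, rfl⟩
    exact vol_two_le hn hw
  · have hbd : BddAbove {V : ℝ | ∃ w, hAngle (pr (List.replicate n (2, 2))) w ∧
        hvol (pr (List.replicate n (2, 2))) w = V} := by
      refine ⟨16 * n * lob (π / 4), ?_⟩
      rintro V ⟨w, hw, rfl⟩
      exact vol_two_le hn hw
    exact le_csSup hbd ⟨ww, ww_angle hn, ww_vol hn⟩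

end Pool.Agent.H10.CYC
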